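import Pool.Agent.Work.MP_883c56_al.Main

/-!
# Q1 of MP_883c56_al: which hulls of finite-length modules are isolated points

Right modules over `U = U(sl_2(k))` are modules over `Uᵐᵒᵖ`.

For an indecomposable right `U`-module `M` of finite length with pure-injective hull `H`, the point
`H` of the Ziegler spectrum of `U` is isolated if and only if `M` is finite-dimensional over `k`.
-/

set_option autoImplicit false
set_option linter.unusedSectionVars false
set_option linter.style.haveILetI false

universe u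

namespace Pool.Agent.Results.MP_883c56_al.IsolatedIffFiniteDim

open Pool.Agent.Work.MP_883c56_al

attribute [local instance 100] LieRing.ofAssociativeRing

/-- The statement asked about in Q1: for every indecomposable right `U`-module `M` of finite
length, the point of the Ziegler spectrum given by a pure-injective hull of `M` is not isolated. -/
def NoHullIsIsolated (k : Type u) [Field k] : Prop :=
  ∀ (M : Type u) [AddCommGroup M] [Module (Usl2 k)ᵐᵒᵖ M],
    IsFiniteLength (Usl2 k)ᵐᵒᵖ M → IsIndec (Usl2 k)ᵐᵒᵖ M →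
      ∀ (H : Type u) [AddCommGroup H] [Module (Usl2 k)ᵐᵒᵖ H] (i : M →ₗ[(Usl2 k)ᵐᵒᵖ] H),
        IsPureInjectiveHull i →
          ∀ (h : IsIndec (Usl2 k)ᵐᵒᵖ H) (h' : IsPureInjective (Usl2 k)ᵐᵒᵖ H),
            ¬ IsOpen ({Zg.mk H h h'} : Set (Zg (Usl2 k)ᵐᵒᵖ))

/-- The augmentation `U → k`, which kills `sl_2(k)`, as a ring homomorphism from `Uᵐᵒᵖ`. -/
noncomputable def augmentation (k : Type u) [Field k] : (Usl2 k)ᵐᵒᵖ →+* k :=
  (UniversalEnvelopingAlgebra.lift k
    (0 : LieAlgebra.SpecialLinear.sl (Fin 2) k →ₗ⁅k⁆ k)).toRingHom.fromOpposite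
    (fun _ _ => mul_comm _ _)

/-- Let `k` be an algebraically closed field of characteristic zero and `U = U(sl_2(k))`. If `M` is
an indecomposable right `U`-module of finite length and `H` is a pure-injective hull of `M`, then
`H` is indecomposable, and its point in the Ziegler spectrum of `U` is isolated if and only if `M`
is finite-dimensional over `k`. Moreover the statement that none of these points is isolated is
false (the trivial module is a counterexample). -/
theorem result (k : Type u) [Field k] [IsAlgClosed k] [CharZero k] :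
    (∀ (M : Type u) [AddCommGroup M] [Module (Usl2 k)ᵐᵒᵖ M] [Module k M]
        [IsScalarTower k (Usl2 k)ᵐᵒᵖ M],
      IsFiniteLength (Usl2 k)ᵐᵒᵖ M → IsIndec (Usl2 k)ᵐᵒᵖ M →
      ∀ (H : Type u) [AddCommGroup H] [Module (Usl2 k)ᵐᵒᵖ H] (i : M →ₗ[(Usl2 k)ᵐᵒᵖ] H),
        IsPureInjectiveHull i →
          ∃ (h : IsIndec (Usl2 k)ᵐᵒᵖ H) (h' : IsPureInjective (Usl2 k)ᵐᵒᵖ H),
            (IsOpen ({Zg.mk H h h'} : Set (Zg (Usl2 k)ᵐᵒᵖ)) ↔ FiniteDimensional k M)) ∧
    ¬ NoHullIsIsolated k := by
  refine ⟨fun M _ _ _ _ hfl hM H _ _ i hi => isOpen_iff k M hfl hM H i hi, ?_⟩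
  intro hno
  letI : Module (Usl2 k)ᵐᵒᵖ k := Module.compHom k (augmentation k)
  haveI : IsScalarTower k (Usl2 k)ᵐᵒᵖ k := ⟨fun c s a => by
    show augmentation k (c • s) * a = c * (augmentation k s * a)
    have h1 : augmentation k (c • s) = c * augmentation k s := by
      rw [Algebra.smul_def, map_mul]
      congr 1
      show UniversalEnvelopingAlgebra.lift k _ (MulOpposite.unop (algebraMap k (Usl2 k)ᵐᵒᵖ c)) = c
      rw [MulOpposite.algebraMap_apply, MulOpposite.unop_op, AlgHom.commutes]
      rfl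
    rw [h1, mul_assoc]⟩
  have hsub : ∀ (p : Submodule (Usl2 k)ᵐᵒᵖ k), p = ⊥ ∨ p = ⊤ := by
    intro p
    by_cases hp : ∃ x ∈ p, x ≠ 0
    · right
      obtain ⟨x, hx, hx0⟩ := hp
      rw [eq_top_iff]
      intro y _
      have h1 : y = (algebraMap k (Usl2 k)ᵐᵒᵖ (y * x⁻¹)) • x := by
        rw [algebraMap_smul, smul_eq_mul, mul_assoc, inv_mul_cancel₀ hx0, mul_one]
      rw [h1]
      exact p.smul_mem _ hx
    · left
      push Not at hp
      rw [eq_bot_iff]
      intro x hx
      exact hp x hx
  haveI hsimple : IsSimpleModule (Usl2 k)ᵐᵒᵖ k := by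
    rw [isSimpleModule_iff]
    exact { toNontrivial := ⟨⊥, ⊤, fun h => by
              have h1 : (1 : k) ∈ (⊤ : Submodule (Usl2 k)ᵐᵒᵖ k) := trivial
              rw [← h, Submodule.mem_bot] at h1
              exact one_ne_zero h1⟩
            eq_bot_or_eq_top := hsub }
  have hind : IsIndec (Usl2 k)ᵐᵒᵖ k := by
    refine ⟨inferInstance, fun p q hpq => ?_⟩
    rcases hsub p with h | h
    · exact Or.inl h
    · right
      have h1 := hpq.1.eq_bot
      rw [h, top_inf_eq] at h1
      exact h1
  have hfl : IsFiniteLength (Usl2 k)ᵐᵒᵖ k := by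
    rw [isFiniteLength_iff_isNoetherian_isArtinian]
    exact ⟨inferInstance, inferInstance⟩
  obtain ⟨h1, h2⟩ := finiteDim_isolated k k inferInstance hind
  obtain ⟨h, h', hopen⟩ := h2 k LinearMap.id h1
  exact hno k hfl hind k LinearMap.id h1 h h' hopen

end Pool.Agent.Results.MP_883c56_al.IsolatedIffFiniteDim
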